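import Mathlib

set_option autoImplicit false

/-! # Barbeau pairs and the arithmetic derivative of squarefree numbers: definitions, basic facts -/

namespace Pool.Agent.Helper44.BB

open Finset

/-- the arithmetic derivative of a squarefree number -/
def D (n : ℕ) : ℕ := ∑ q ∈ n.primeFactors, n / q

/-- the sum of the reciprocals of the prime factors -/
noncomputable def dl (n : ℕ) : ℝ := ∑ q ∈ n.primeFactors, 1 / (q : ℝ)

/-- the `t`-smooth part of a squarefree number -/
noncomputable def sp (t : ℝ) (n : ℕ) : ℕ := ∏ q ∈ n.primeFactors.filter (fun q : ℕ => (q : ℝ) ≤ t), q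

/-- a pair of sets of primes with `σ(P) σ(Q) = 1` -/
structure Sol (P Q : Finset ℕ) : Prop where
  hP : ∀ p ∈ P, p.Prime
  hQ : ∀ q ∈ Q, q.Prime
  eq : (∑ p ∈ P, 1 / (p : ℚ)) * (∑ q ∈ Q, 1 / (q : ℚ)) = 1

/-- a cycle of length two of the arithmetic derivative, both members are squarefree -/
structure Cyc (a b : ℕ) : Prop where
  sa : Squarefree a
  sb : Squarefree b
  ab : D a = b
  ba : D b = a

theorem D_cast (n : ℕ) : (D n : ℝ) = n * dl n := by
  unfold D dl
  rw [Nat.cast_sum, mul_sum]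
  refine sum_congr rfl fun q hq => ?_
  rw [Nat.cast_div (Nat.dvd_of_mem_primeFactors hq)
    (Nat.cast_ne_zero.2 (Nat.prime_of_mem_primeFactors hq).ne_zero), mul_one_div]

theorem dl_nonneg (n : ℕ) : 0 ≤ dl n := sum_nonneg fun _ _ => by positivity

theorem dl_one : dl 1 = 0 := by simp [dl]

theorem dl_mul {m n : ℕ} (h : m.Coprime n) : dl (m * n) = dl m + dl n := by
  unfold dl
  rw [h.primeFactors_mul, sum_union h.disjoint_primeFactors]

theorem dl_prime {p : ℕ} (hp : p.Prime) : dl p = 1 / p := by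
  unfold dl
  rw [hp.primeFactors, sum_singleton]

theorem dl_le_of_dvd {m n : ℕ} (hn : n ≠ 0) (h : m ∣ n) : dl m ≤ dl n :=
  sum_le_sum_of_subset_of_nonneg (Nat.primeFactors_mono h hn) fun _ _ _ => by positivity

theorem D_mul {m n : ℕ} (h : m.Coprime n) : D (m * n) = m * D n + n * D m := by
  have h1 := D_cast (m * n)
  rw [dl_mul h] at h1
  have h2 : ((m * n : ℕ) : ℝ) * (dl m + dl n) = (m : ℝ) * (n * dl n) + n * (m * dl m) := by
    push_cast
    ring
  rw [h2, ← D_cast, ← D_cast] at h1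
  exact_mod_cast h1

theorem D_prime {p : ℕ} (hp : p.Prime) : D p = 1 := by
  unfold D
  rw [hp.primeFactors, sum_singleton, Nat.div_self hp.pos]

theorem D_prime_mul {p k : ℕ} (hp : p.Prime) (h : ¬ p ∣ k) : D (p * k) = p * D k + k := by
  rw [D_mul ((Nat.Prime.coprime_iff_not_dvd hp).2 h), D_prime hp, mul_one]

/-- `n'` is prime to `n` -/
theorem D_coprime {n : ℕ} (hn : Squarefree n) : n.Coprime (D n) := by
  refine Nat.Coprime.symm (Nat.coprime_of_dvd fun p hp h1 h2 => ?_)
  obtain ⟨k, rfl⟩ := h2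
  have hk : ¬ p ∣ k := fun h => by
    obtain ⟨l, rfl⟩ := h
    exact hp.one_lt.ne' (Nat.isUnit_iff.1 (hn p ⟨l, by ring⟩))
  rw [D_prime_mul hp hk] at h1
  exact hk ((Nat.dvd_add_right (Dvd.intro _ rfl)).1 h1)

/-- the values of `dl` at different squarefree numbers are well separated -/
theorem dl_sep {m n : ℕ} (hm : Squarefree m) (hn : Squarefree n)
    (h : |dl m - dl n| < 1 / ((m : ℝ) * n)) : m = n := by
  have hm0 : (0 : ℝ) < m := Nat.cast_pos.2 hm.ne_zero.bot_lt
  have hn0 : (0 : ℝ) < n := Nat.cast_pos.2 hn.ne_zero.bot_lt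
  have hmn : (0 : ℝ) < (m : ℝ) * n := mul_pos hm0 hn0
  have h1 : |((D m : ℤ) * n - (D n : ℤ) * m : ℤ)| < 1 := by
    have : |(((D m : ℤ) * n - (D n : ℤ) * m : ℤ) : ℝ)| < 1 := by
      push_cast
      rw [D_cast, D_cast]
      have e : (m : ℝ) * dl m * n - n * dl n * m = ((m : ℝ) * n) * (dl m - dl n) := by ring
      rw [e, abs_mul, abs_of_pos hmn]
      calc (m : ℝ) * n * |dl m - dl n| < (m : ℝ) * n * (1 / ((m : ℝ) * n)) :=
            mul_lt_mul_of_pos_left h hmn
        _ = 1 := by field_simp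
    exact_mod_cast this
  have h2 : (D m : ℤ) * n = (D n : ℤ) * m := by
    have := Int.abs_lt_one_iff.1 h1
    omega
  have h3 : D m * n = D n * m := by exact_mod_cast h2
  have d1 : m ∣ n := (D_coprime hm).dvd_of_dvd_mul_left (h3 ▸ Dvd.intro_left _ rfl)
  have d2 : n ∣ m := (D_coprime hn).dvd_of_dvd_mul_left (h3 ▸ Dvd.intro_left _ rfl)
  exact Nat.dvd_antisymm d1 d2

/-! ## smooth parts -/

theorem sp_dvd (t : ℝ) (n : ℕ) : sp t n ∣ n :=
  (prod_dvd_prod_of_subset _ _ _ (filter_subset _ _)).trans (Nat.prod_primeFactors_dvd n)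

theorem sp_pos (t : ℝ) (n : ℕ) : 0 < sp t n :=
  prod_pos fun _ hq => (Nat.prime_of_mem_primeFactors (mem_filter.1 hq).1).pos

theorem sp_primeFactors (t : ℝ) (n : ℕ) :
    (sp t n).primeFactors = n.primeFactors.filter (fun q : ℕ => (q : ℝ) ≤ t) :=
  Nat.primeFactors_prod fun _ hq => Nat.prime_of_mem_primeFactors (mem_filter.1 hq).1

theorem sp_squarefree (t : ℝ) {n : ℕ} (hn : Squarefree n) : Squarefree (sp t n) :=
  hn.squarefree_of_dvd (sp_dvd t n)

theorem dl_sp (t : ℝ) (n : ℕ) :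
    dl (sp t n) = ∑ q ∈ n.primeFactors.filter (fun q : ℕ => (q : ℝ) ≤ t), 1 / (q : ℝ) := by
  unfold dl
  rw [sp_primeFactors]

theorem sp_mono {t t' : ℝ} (h : t ≤ t') (n : ℕ) : sp t n ∣ sp t' n :=
  prod_dvd_prod_of_subset _ _ _ fun _ hq =>
    mem_filter.2 ⟨(mem_filter.1 hq).1, (mem_filter.1 hq).2.trans h⟩

theorem sp_mul {m n : ℕ} (h : m.Coprime n) (t : ℝ) : sp t (m * n) = sp t m * sp t n := by
  unfold sp
  rw [h.primeFactors_mul, filter_union, prod_union]
  exact disjoint_filter_filter h.disjoint_primeFactors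

/-- the smooth part of a smooth number -/
theorem sp_self {t : ℝ} {n : ℕ} (hn : Squarefree n) (h : ∀ q, q.Prime → q ∣ n → (q : ℝ) ≤ t) :
    sp t n = n := by
  unfold sp
  rw [filter_true_of_mem fun q hq => h q (Nat.prime_of_mem_primeFactors hq)
    (Nat.dvd_of_mem_primeFactors hq)]
  exact Nat.prod_primeFactors_of_squarefree hn

theorem sp_prime {t : ℝ} {p : ℕ} (hp : p.Prime) (h : t < p) : sp t p = 1 := by
  unfold sp
  rw [hp.primeFactors, filter_singleton, if_neg (not_le.2 h), prod_empty]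

end Pool.Agent.Helper44.BB
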