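import Pool.Agent.Helper44.BB.Stmts

set_option autoImplicit false

/-! Module CNT: the main part of the count. -/

namespace Pool.Agent.Helper44.BB

open Finset

/-- the facts about one number -/
lemma cnt_one (hB : ST_BND) (hE : ST_ERR) (hW : ST_WEX) {x Y z Q W : ℝ} {a p : ℕ}
    (hL : 1 ≤ Real.log x) (hW1 : 1 ≤ W) (h1 : 8 * Real.log x ^ 2 * W ^ 2 ≤ Q)
    (hQ1 : 1 ≤ Q) (hQz : Q ≤ z) (hzY : z < Y) (hax : (a : ℝ) ≤ x) (hc : Cyc a (D a))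
    (hp : p.Prime) (hpa : p ∣ a) (hpY : Y < p) (hs : (sp z (D a) : ℝ) ≤ Y) :
    (a = p * (a / p) ∧ ¬ p ∣ a / p ∧ (p : ℝ) ≤ x / (a / p : ℕ) ∧
      (sp z (D a) : ℝ) ≤ x / (a / p : ℕ)) ∧
    Squarefree (a / p) ∧ Squarefree (sp z (D a)) ∧ ((a / p : ℕ) : ℝ) ≤ x ∧
      (sp z (D a) : ℝ) ≤ x ∧
      dl (sp z (a / p)) ≤ 2 * Real.log x ∧ dl (sp z (D a)) ≤ 2 * Real.log x ∧
      1 - 8 * Real.log x ^ 2 / z ≤ dl (sp z (a / p)) * dl (sp z (D a)) ∧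
      dl (sp z (a / p)) * dl (sp z (D a)) ≤ 1 ∧
      ∃ w : ℕ, W ≤ w ∧ (w : ℝ) ≤ Q ∧ (w ∣ a / p ∨ w ∣ sp z (D a)) := by
  obtain ⟨k, hk⟩ := hpa
  have hkp : a / p = k := by rw [hk, Nat.mul_div_cancel_left _ hp.pos]
  rw [hkp]
  have ha0 : a ≠ 0 := hc.sa.ne_zero
  have hk0 : k ≠ 0 := by rintro rfl; exact ha0 (by rw [hk, mul_zero])
  have hpk : ¬ p ∣ k := fun h => by
    obtain ⟨l, rfl⟩ := h
    exact hp.one_lt.ne' (Nat.isUnit_iff.1 (hc.sa p ⟨l, by rw [hk]; ring⟩))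
  have hcop : p.Coprime k := (Nat.Prime.coprime_iff_not_dvd hp).2 hpk
  have hka : k ∣ a := ⟨p, by rw [hk, mul_comm]⟩
  have hk0' : (0 : ℝ) < k := Nat.cast_pos.2 hk0.bot_lt
  have hpx : (p : ℝ) * k ≤ x := by
    rw [hk] at hax
    exact_mod_cast hax
  have hp1 : (1 : ℝ) ≤ p := Nat.one_le_cast.2 hp.pos
  have hpx' : (p : ℝ) ≤ x / k := (le_div_iff₀ hk0').2 hpx
  have hkx : (k : ℝ) ≤ x := le_trans (by nlinarith) hpx
  have hk1 : (1 : ℝ) ≤ k := Nat.one_le_cast.2 hk0.bot_lt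
  have hpxx : (p : ℝ) ≤ x := le_trans (by nlinarith) hpx
  have hz1 : 1 ≤ z := hQ1.trans hQz
  have hsp : sp z a = sp z k := by
    rw [hk, sp_mul hcop, sp_prime hp (hzY.trans hpY), one_mul]
  obtain ⟨_, _, b3, b4, _⟩ := hB a (D a) x hc hax hL
  obtain ⟨e1, e2, _⟩ := hE a (D a) x z hc hax hL hz1
  rw [hsp] at e1 e2
  obtain ⟨w, w1, w2, w3⟩ := hW a (D a) x Q W hc hax hL hW1 h1
    ⟨p, hp, ⟨k, hk⟩, hQz.trans_lt (hzY.trans hpY)⟩
  refine ⟨⟨hk, hpk, hpx', (hs.trans hpY.le).trans hpx'⟩, hc.sa.squarefree_of_dvd hka,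
    sp_squarefree z hc.sb, hkx, (hs.trans hpY.le).trans hpxx, ?_, ?_, e1, e2, w, w1, w2, ?_⟩
  · have := dl_le_of_dvd ha0 ((sp_dvd z k).trans hka)
    linarith
  · exact (dl_le_of_dvd hc.sb.ne_zero (sp_dvd z (D a))).trans b4
  · rcases w3 with w3 | w3
    · left
      exact (w3.trans (sp_mono hQz a)).trans (hsp ▸ sp_dvd z k)
    · exact Or.inr (w3.trans (sp_mono hQz (D a)))

/-- (CNT) -/
theorem st_CNT (hB : ST_BND) (hE : ST_ERR) (hW : ST_WEX) (hP : ST_PRO) (hK : ST_KSM) :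
    ST_CNT := by
  intro x Y z Q W A hx0 hL hW1 h1 h2 hzY hA
  classical
  have hLL : (1 : ℝ) ≤ Real.log x ^ 2 := one_le_pow₀ hL
  have hLLL : (1 : ℝ) ≤ Real.log x ^ 3 := one_le_pow₀ hL
  have hWW : (1 : ℝ) ≤ W ^ 2 := one_le_pow₀ hW1
  have hQ1 : 1 ≤ Q := by nlinarith
  have hQQ : Q ≤ Q ^ 2 := by nlinarith
  have hQz : Q ≤ z := by nlinarith
  -- choose a prime
  have hch : ∀ a : ℕ, ∃ p : ℕ, a ∈ A → p.Prime ∧ p ∣ a ∧ Y < p := by
    intro a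
    by_cases ha : a ∈ A
    · obtain ⟨p, hp⟩ := (hA a ha).2.2.1
      exact ⟨p, fun _ => hp⟩
    · exact ⟨0, fun h => absurd h ha⟩
  choose f hf using hch
  have F := fun (a : ℕ) (ha : a ∈ A) => cnt_one hB hE hW hL hW1 h1 hQ1 hQz hzY (hA a ha).1
    (hA a ha).2.1 (hf a ha).1 (hf a ha).2.1 (hf a ha).2.2 (hA a ha).2.2.2
  obtain ⟨g, hg⟩ : ∃ g : ℕ → ℕ × ℕ, g = fun a => (a / f a, sp z (D a)) := ⟨_, rfl⟩
  have hsum := hK (A.image g) x z Q W hL hW1 hQ1 h2 (by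
    intro c hc
    obtain ⟨a, ha, rfl⟩ := mem_image.1 hc
    rw [hg]
    exact (F a ha).2)
  have hfib : ∀ c ∈ A.image g, ((A.filter fun a => g a = c).card : ℝ) ≤
      2 * x * (1 / ((c.1 : ℝ) * c.2)) := by
    intro c hc
    obtain ⟨a₀, ha₀, hc₀⟩ := mem_image.1 hc
    have F₀ := F a₀ ha₀
    have hc1 : c.1 = a₀ / f a₀ := by rw [← hc₀, hg]
    have hc2 : c.2 = sp z (D a₀) := by rw [← hc₀, hg]
    have hsX : (c.2 : ℝ) ≤ x / c.1 := by
      rw [hc1, hc2]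
      exact F₀.1.2.2.2
    have hsq : Squarefree c.1 := by rw [hc1]; exact F₀.2.1
    have hpos : 0 < c.2 := by rw [hc2]; exact sp_pos _ _
    have hinj : Set.InjOn f (A.filter fun a => g a = c : Finset ℕ) := by
      intro a ha b hb hab
      obtain ⟨ha1, ha2⟩ := mem_filter.1 (mem_coe.1 ha)
      obtain ⟨hb1, hb2⟩ := mem_filter.1 (mem_coe.1 hb)
      have e1 := (F a ha1).1.1
      have e2 := (F b hb1).1.1
      have e3 : a / f a = b / f b := by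
        have := ha2.trans hb2.symm
        rw [hg] at this
        exact (Prod.ext_iff.1 this).1
      rw [e1, e2, e3, hab]
    have := hP (x / c.1) c.1 c.2 ((A.filter fun a => g a = c).image f) hsq hpos hsX (by
      intro p hp
      obtain ⟨a, ha, rfl⟩ := mem_image.1 hp
      obtain ⟨ha1, ha2⟩ := mem_filter.1 ha
      have Fa := (F a ha1).1
      have d1 : c.1 = a / f a := by rw [← ha2, hg]
      have d2 : c.2 = sp z (D a) := by rw [← ha2, hg]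
      refine ⟨(hf a ha1).1, ?_, ?_, ?_⟩
      · rw [d1]; exact Fa.2.2.1
      · rw [d1]; exact Fa.2.1
      · rw [d1, d2, ← Fa.1]; exact sp_dvd z (D a))
    rw [card_image_of_injOn hinj] at this
    refine this.trans (le_of_eq ?_)
    have h3 : (c.1 : ℝ) ≠ 0 := Nat.cast_ne_zero.2 hsq.ne_zero
    have h4 : (c.2 : ℝ) ≠ 0 := Nat.cast_ne_zero.2 hpos.ne'
    field_simp
  have hcard : (A.card : ℝ) = ∑ c ∈ A.image g, ((A.filter fun a => g a = c).card : ℝ) := by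
    rw [card_eq_sum_card_image g A]
    push_cast
    rfl
  rw [hcard]
  calc ∑ c ∈ A.image g, ((A.filter fun a => g a = c).card : ℝ) ≤
        ∑ c ∈ A.image g, 2 * x * (1 / ((c.1 : ℝ) * c.2)) := sum_le_sum hfib
    _ = 2 * x * ∑ c ∈ A.image g, 1 / ((c.1 : ℝ) * c.2) := by rw [mul_sum]
    _ ≤ 2 * x * (2 * (1 + Real.log x) ^ 2 / W) :=
        mul_le_mul_of_nonneg_left hsum (by positivity)
    _ = _ := by ring

end Pool.Agent.Helper44.BB
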