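import Pool.Agent.Helper44.BB.Stmts

set_option autoImplicit false

/-! # Assembly -/

namespace Pool.Agent.Helper44.BB

open Finset

theorem main_of (hB : ST_BND) (hC : ST_CNT) (hS : ST_SMO) (hP : ST_SMP) (hM : ST_MER)
    (hN : ST_NUM) : ST_MAIN := by
  obtain ⟨C, hC0, hM⟩ := hM
  obtain ⟨l₀, hl₀, hN⟩ := hN C hC0
  refine ⟨Real.exp (l₀ ^ 3), fun x A hx hA => ?_⟩
  have hx0 : 0 < x := (Real.exp_pos _).trans_le hx
  have hL : l₀ ^ 3 ≤ Real.log x := by
    rw [← Real.log_exp (l₀ ^ 3)]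
    exact Real.log_le_log (Real.exp_pos _) hx
  have hl0 : (0 : ℝ) < l₀ := by linarith
  have hL0 : 0 < Real.log x := (pow_pos hl0 3).trans_le hL
  obtain ⟨l, hl⟩ : ∃ l : ℝ, l = Real.log x ^ (1 / 3 : ℝ) := ⟨_, rfl⟩
  have hl3 : l ^ 3 = Real.log x := by
    rw [hl, ← Real.rpow_natCast, ← Real.rpow_mul hL0.le]
    norm_num
  have hlp : 0 ≤ l := by rw [hl]; exact Real.rpow_nonneg hL0.le _
  have hll : l₀ ≤ l := by
    rw [← hl3] at hL
    exact le_of_pow_le_pow_left₀ (by norm_num) hlp hL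
  have hl4 : 4 < l := hl₀.trans_le hll
  obtain ⟨n1, n2, n3⟩ := hN l hll
  rw [← hl]
  have hL1 : 1 ≤ Real.log x := by
    rw [← hl3]
    exact one_le_pow₀ (by linarith)
  -- the three parts
  classical
  have hA1 : ((A.filter fun a => ∀ p : ℕ, p.Prime → p ∣ a → (p : ℝ) ≤ Real.exp (l ^ 2)).card : ℝ) ≤
      x * Real.exp (-l + Real.exp 1 * (C * (1 + Real.log (l ^ 2)))) := by
    have h1 := hS x (Real.exp (l ^ 2))
      (A.filter fun a => ∀ p : ℕ, p.Prime → p ∣ a → (p : ℝ) ≤ Real.exp (l ^ 2)) hx0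
      (Real.exp_le_exp.2 (by nlinarith)) fun a ha =>
        ⟨(hA a (mem_filter.1 ha).1).2.sa, (hA a (mem_filter.1 ha).1).1, (mem_filter.1 ha).2⟩
    refine h1.trans (mul_le_mul_of_nonneg_left (Real.exp_le_exp.2 ?_) hx0.le)
    have h2 := hM (Real.exp (l ^ 2)) (Real.exp_le_exp.2 (by nlinarith))
    rw [Real.log_exp] at h2 ⊢
    have h3 : Real.log x / l ^ 2 = l := by
      rw [← hl3]
      field_simp
    rw [h3]
    exact add_le_add le_rfl (mul_le_mul_of_nonneg_left h2 (Real.exp_pos _).le)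
  have hA2 : ((A.filter fun a => Real.exp (l ^ 2) < sp (Real.exp (l / 4)) (D a)).card : ℝ) ≤
      x * (l ^ 3 * Real.exp (-(4 * l) + Real.exp 1 * (1 + l / 4))) := by
    have hinj : Set.InjOn D
        (A.filter fun a => Real.exp (l ^ 2) < sp (Real.exp (l / 4)) (D a) : Finset ℕ) := by
      intro a ha b hb hab
      have h1 := (hA a (mem_filter.1 (mem_coe.1 ha)).1).2.ba
      have h2 := (hA b (mem_filter.1 (mem_coe.1 hb)).1).2.ba
      rw [← h1, ← h2, hab]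
    rw [← card_image_of_injOn hinj]
    have h1 := hP (x * Real.log x) (Real.exp (l ^ 2)) (Real.exp (l / 4))
      ((A.filter fun a => Real.exp (l ^ 2) < sp (Real.exp (l / 4)) (D a)).image D)
      (by positivity) (Real.exp_pos _) (Real.exp_le_exp.2 (by linarith)) (by
        intro b hb
        obtain ⟨a, ha, rfl⟩ := mem_image.1 hb
        obtain ⟨ha1, ha2⟩ := mem_filter.1 ha
        exact ⟨(hA a ha1).2.sb.ne_zero.bot_lt,
          (hB a (D a) x (hA a ha1).2 (hA a ha1).1 hL1).2.2.2.2, ha2⟩)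
    refine h1.trans (le_of_eq ?_)
    rw [Real.log_exp, Real.log_exp, hl3]
    have h3 : l ^ 2 / (l / 4) = 4 * l := by field_simp
    rw [h3, mul_assoc]
  have hA3 : ((A.filter fun a => ¬ (∀ p : ℕ, p.Prime → p ∣ a → (p : ℝ) ≤ Real.exp (l ^ 2)) ∧
      ¬ Real.exp (l ^ 2) < sp (Real.exp (l / 4)) (D a)).card : ℝ) ≤
      x * (4 * (1 + l ^ 3) ^ 2 / Real.exp (l / 19)) := by
    have h1 := hC x (Real.exp (l ^ 2)) (Real.exp (l / 4)) (Real.exp (l / 9)) (Real.exp (l / 19))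
      (A.filter fun a => ¬ (∀ p : ℕ, p.Prime → p ∣ a → (p : ℝ) ≤ Real.exp (l ^ 2)) ∧
        ¬ Real.exp (l ^ 2) < sp (Real.exp (l / 4)) (D a)) hx0 hL1
      (Real.one_le_exp (by positivity)) (by rw [← hl3]; exact n1) (by rw [← hl3]; exact n2)
      (Real.exp_lt_exp.2 (by nlinarith)) (by
        intro a ha
        obtain ⟨ha1, ha2, ha3⟩ := mem_filter.1 ha
        push Not at ha2 ha3
        exact ⟨(hA a ha1).1, (hA a ha1).2, ha2, ha3⟩)
    refine h1.trans (le_of_eq ?_)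
    rw [hl3]
    ring
  have hcov : A ⊆ (A.filter fun a => ∀ p : ℕ, p.Prime → p ∣ a → (p : ℝ) ≤ Real.exp (l ^ 2)) ∪
      ((A.filter fun a => Real.exp (l ^ 2) < sp (Real.exp (l / 4)) (D a)) ∪
      (A.filter fun a => ¬ (∀ p : ℕ, p.Prime → p ∣ a → (p : ℝ) ≤ Real.exp (l ^ 2)) ∧
        ¬ Real.exp (l ^ 2) < sp (Real.exp (l / 4)) (D a))) := by
    intro a ha
    rw [mem_union, mem_union, mem_filter, mem_filter, mem_filter]
    by_cases h1 : ∀ p : ℕ, p.Prime → p ∣ a → (p : ℝ) ≤ Real.exp (l ^ 2)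
    · exact Or.inl ⟨ha, h1⟩
    · by_cases h2 : Real.exp (l ^ 2) < sp (Real.exp (l / 4)) (D a)
      · exact Or.inr (Or.inl ⟨ha, h2⟩)
      · exact Or.inr (Or.inr ⟨ha, h1, h2⟩)
  have hcard := (card_le_card hcov).trans ((card_union_le _ _).trans
    (add_le_add le_rfl (card_union_le _ _)))
  have hcard' : (A.card : ℝ) ≤ _ := Nat.cast_le.2 hcard
  push_cast at hcard'
  refine hcard'.trans ?_
  have hfin : Real.exp (-l + Real.exp 1 * (C * (1 + Real.log (l ^ 2)))) +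
    l ^ 3 * Real.exp (-(4 * l) + Real.exp 1 * (1 + l / 4)) +
    4 * (1 + l ^ 3) ^ 2 / Real.exp (l / 19) ≤ Real.exp (-(l / 20)) := n3
  calc _ ≤ x * Real.exp (-l + Real.exp 1 * (C * (1 + Real.log (l ^ 2)))) +
        (x * (l ^ 3 * Real.exp (-(4 * l) + Real.exp 1 * (1 + l / 4))) +
        x * (4 * (1 + l ^ 3) ^ 2 / Real.exp (l / 19))) :=
      add_le_add hA1 (add_le_add hA2 hA3)
    _ = x * (Real.exp (-l + Real.exp 1 * (C * (1 + Real.log (l ^ 2)))) +
      l ^ 3 * Real.exp (-(4 * l) + Real.exp 1 * (1 + l / 4)) +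
      4 * (1 + l ^ 3) ^ 2 / Real.exp (l / 19)) := by ring
    _ ≤ _ := mul_le_mul_of_nonneg_left hfin hx0.le

end Pool.Agent.Helper44.BB
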