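import Pool.Agent.Helper44.BB.Basic

set_option autoImplicit false

/-! # Statements of the modules (bb_mods) -/

namespace Pool.Agent.Helper44.BB

open Finset

/-- (SOL) solutions give cycles of length two -/
def ST_SOL : Prop := ∀ P Q : Finset ℕ, Sol P Q → Cyc (∏ p ∈ P, p) (∏ q ∈ Q, q)

/-- (BND) trivial bounds -/
def ST_BND : Prop := ∀ (a b : ℕ) (x : ℝ), Cyc a b → (a : ℝ) ≤ x → 1 ≤ Real.log x →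
  (a.primeFactors.card : ℝ) ≤ 2 * Real.log x ∧ (b.primeFactors.card : ℝ) ≤ 3 * Real.log x ∧
  dl a ≤ Real.log x ∧ dl b ≤ 2 * Real.log x ∧ (b : ℝ) ≤ x * Real.log x

/-- (ERR) the smooth parts nearly solve the equation (from BND) -/
def ST_ERR : Prop := ∀ (a b : ℕ) (x t : ℝ), Cyc a b → (a : ℝ) ≤ x → 1 ≤ Real.log x → 1 ≤ t →
  1 - 8 * Real.log x ^ 2 / t ≤ dl (sp t a) * dl (sp t b) ∧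
  dl (sp t a) * dl (sp t b) ≤ 1 ∧
  ((∃ p : ℕ, p.Prime ∧ p ∣ a ∧ t < p) →
    dl (sp t a) * dl (sp t b) ≤ 1 - 1 / ((sp t a : ℝ) * sp t b))

/-- (DIV) a divisor in a given interval -/
def ST_DIV : Prop := ∀ (n : ℕ) (Q W : ℝ), n ≠ 0 → 1 ≤ W → W ^ 2 ≤ Q → W ≤ n →
  (∀ p : ℕ, p.Prime → p ∣ n → (p : ℝ) ≤ Q) → ∃ w : ℕ, w ∣ n ∧ W ≤ w ∧ (w : ℝ) ≤ Q

/-- (WEX) one of the smooth parts has a divisor in a given interval (from ERR, DIV) -/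
def ST_WEX : Prop := ∀ (a b : ℕ) (x Q W : ℝ), Cyc a b → (a : ℝ) ≤ x → 1 ≤ Real.log x → 1 ≤ W →
  8 * Real.log x ^ 2 * W ^ 2 ≤ Q → (∃ p : ℕ, p.Prime ∧ p ∣ a ∧ Q < p) →
  ∃ w : ℕ, W ≤ w ∧ (w : ℝ) ≤ Q ∧ (w ∣ sp Q a ∨ w ∣ sp Q b)

/-- (PRO) the primes lie in a residue class -/
def ST_PRO : Prop := ∀ (X : ℝ) (k s : ℕ) (A : Finset ℕ), Squarefree k → 0 < s → (s : ℝ) ≤ X →
  (∀ p ∈ A, p.Prime ∧ (p : ℝ) ≤ X ∧ ¬ p ∣ k ∧ s ∣ D (p * k)) → (A.card : ℝ) ≤ 2 * X / s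

/-- (UNI) the divisor is determined by the rest -/
def ST_UNI : Prop := ∀ (L z Q y β : ℝ) (w₁ w₂ : ℕ), 1 ≤ L → 1 ≤ Q → 32 * L ^ 3 * Q ^ 2 < z →
  Squarefree w₁ → Squarefree w₂ → (w₁ : ℝ) ≤ Q → (w₂ : ℝ) ≤ Q → 0 ≤ β →
  y + dl w₁ ≤ 2 * L → 1 - 8 * L ^ 2 / z ≤ (y + dl w₁) * β → (y + dl w₁) * β ≤ 1 →
  1 - 8 * L ^ 2 / z ≤ (y + dl w₂) * β → (y + dl w₂) * β ≤ 1 → w₁ = w₂

/-- (INJ) summation -/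
def ST_INJ : Prop := ∀ (K : Finset (ℕ × ℕ)) (x W : ℝ) (g : ℕ × ℕ → ℕ), 0 < W → 1 ≤ x →
  (∀ c ∈ K, 0 < c.1 ∧ 0 < c.2 ∧ (c.1 : ℝ) ≤ x ∧ (c.2 : ℝ) ≤ x ∧ W ≤ g c ∧ g c ∣ c.1) →
  Set.InjOn (fun c : ℕ × ℕ => (c.1 / g c, c.2)) K →
  ∑ c ∈ K, 1 / ((c.1 : ℝ) * c.2) ≤ (1 + Real.log x) ^ 2 / W

/-- (KSM) the sum over the pairs of cofactor and smooth part (from UNI, INJ) -/
def ST_KSM : Prop := ∀ (K : Finset (ℕ × ℕ)) (x z Q W : ℝ), 1 ≤ Real.log x → 1 ≤ W → 1 ≤ Q →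
  32 * Real.log x ^ 3 * Q ^ 2 < z →
  (∀ c ∈ K, Squarefree c.1 ∧ Squarefree c.2 ∧ (c.1 : ℝ) ≤ x ∧ (c.2 : ℝ) ≤ x ∧
    dl (sp z c.1) ≤ 2 * Real.log x ∧ dl c.2 ≤ 2 * Real.log x ∧
    1 - 8 * Real.log x ^ 2 / z ≤ dl (sp z c.1) * dl c.2 ∧ dl (sp z c.1) * dl c.2 ≤ 1 ∧
    ∃ w : ℕ, W ≤ w ∧ (w : ℝ) ≤ Q ∧ (w ∣ c.1 ∨ w ∣ c.2)) →
  ∑ c ∈ K, 1 / ((c.1 : ℝ) * c.2) ≤ 2 * (1 + Real.log x) ^ 2 / W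

/-- (CNT) the main part (from BND, ERR, WEX, PRO, KSM) -/
def ST_CNT : Prop := ∀ (x Y z Q W : ℝ) (A : Finset ℕ), 0 < x → 1 ≤ Real.log x → 1 ≤ W →
  8 * Real.log x ^ 2 * W ^ 2 ≤ Q → 32 * Real.log x ^ 3 * Q ^ 2 < z → z < Y →
  (∀ a ∈ A, (a : ℝ) ≤ x ∧ Cyc a (D a) ∧ (∃ p : ℕ, p.Prime ∧ p ∣ a ∧ Y < p) ∧
    (sp z (D a) : ℝ) ≤ Y) →
  (A.card : ℝ) ≤ 4 * x * (1 + Real.log x) ^ 2 / W

/-- (RK) Rankin's method -/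
def ST_RK : Prop := ∀ (A : Finset ℕ) (y : ℝ), (∀ p ∈ A, p.Prime ∧ (p : ℝ) ≤ y) → 1 < y →
  ∑ T ∈ A.powerset, ((∏ p ∈ T, p : ℕ) : ℝ) ^ (1 / Real.log y - 1) ≤
    Real.exp (Real.exp 1 * ∑ p ∈ A, 1 / (p : ℝ))

/-- the primes up to `y` -/
noncomputable def pr (y : ℝ) : Finset ℕ := (range (⌊y⌋₊ + 1)).filter Nat.Prime

/-- (SMO) smooth numbers (from RK) -/
def ST_SMO : Prop := ∀ (x Y : ℝ) (A : Finset ℕ), 0 < x → Real.exp 1 ≤ Y →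
  (∀ a ∈ A, Squarefree a ∧ (a : ℝ) ≤ x ∧ ∀ p : ℕ, p.Prime → p ∣ a → (p : ℝ) ≤ Y) →
  (A.card : ℝ) ≤
    x * Real.exp (-(Real.log x / Real.log Y) + Real.exp 1 * ∑ p ∈ pr Y, 1 / (p : ℝ))

/-- (SMP) numbers with a large smooth part (from RK) -/
def ST_SMP : Prop := ∀ (B Y z : ℝ) (A : Finset ℕ), 0 ≤ B → 0 < Y → Real.exp 1 ≤ z →
  (∀ b ∈ A, 0 < b ∧ (b : ℝ) ≤ B ∧ Y < sp z b) →
  (A.card : ℝ) ≤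
    B * Real.exp (-(Real.log Y / Real.log z) + Real.exp 1 * (1 + Real.log z))

/-- (MER) the sum of the reciprocals of the primes -/
def ST_MER : Prop := ∃ C : ℝ, 0 ≤ C ∧ ∀ Y : ℝ, Real.exp 1 ≤ Y →
  ∑ p ∈ pr Y, 1 / (p : ℝ) ≤ C * (1 + Real.log (Real.log Y))

/-- (NUM) numerical inequalities -/
def ST_NUM : Prop := ∀ C : ℝ, 0 ≤ C → ∃ l₀ : ℝ, 4 < l₀ ∧ ∀ l : ℝ, l₀ ≤ l →
  8 * (l ^ 3) ^ 2 * Real.exp (l / 19) ^ 2 ≤ Real.exp (l / 9) ∧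
  32 * (l ^ 3) ^ 3 * Real.exp (l / 9) ^ 2 < Real.exp (l / 4) ∧
  Real.exp (-l + Real.exp 1 * (C * (1 + Real.log (l ^ 2)))) +
    l ^ 3 * Real.exp (-(4 * l) + Real.exp 1 * (1 + l / 4)) +
    4 * (1 + l ^ 3) ^ 2 / Real.exp (l / 19) ≤ Real.exp (-(l / 20))

/-- (MAIN) the counting function (from BND, CNT, SMO, SMP, MER, NUM) -/
def ST_MAIN : Prop := ∃ x₀ : ℝ, ∀ (x : ℝ) (A : Finset ℕ), x₀ ≤ x →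
  (∀ a ∈ A, (a : ℝ) ≤ x ∧ Cyc a (D a)) →
  (A.card : ℝ) ≤ x * Real.exp (-(Real.log x ^ (1 / 3 : ℝ) / 20))

/-- (SUMM) summation of a thin set -/
def ST_SUMM : Prop := ∀ (S : Set ℕ) (x₀ c : ℝ), 0 < c → 0 ∉ S → (∀ (x : ℝ) (A : Finset ℕ), x₀ ≤ x →
  (∀ a ∈ A, (a : ℝ) ≤ x ∧ a ∈ S) → (A.card : ℝ) ≤ x * Real.exp (-(Real.log x ^ (1 / 3 : ℝ) * c))) →
  Summable fun a : S => 1 / ((a : ℕ) : ℝ)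

end Pool.Agent.Helper44.BB
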