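import Pool.Agent.Helper44.BB.Stmts

set_option autoImplicit false

/-! Module WEX: one of the smooth parts has a divisor in a given interval. -/

namespace Pool.Agent.Helper44.BB

open Finset

theorem st_WEX (hE : ST_ERR) (hD : ST_DIV) : ST_WEX := by
  intro a b x Q W hc hax hL hW1 h1 hp
  have hLL : (1 : ℝ) ≤ Real.log x ^ 2 := one_le_pow₀ hL
  have hWW : (1 : ℝ) ≤ W ^ 2 := one_le_pow₀ hW1
  have hQ1 : 1 ≤ Q := by nlinarith
  have hWQ : W ^ 2 ≤ Q := by nlinarith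
  obtain ⟨e1, _, e3⟩ := hE a b x Q hc hax hL hQ1
  have e3 := e3 hp
  have hu : (0 : ℝ) < sp Q a := Nat.cast_pos.2 (sp_pos Q a)
  have hs : (0 : ℝ) < sp Q b := Nat.cast_pos.2 (sp_pos Q b)
  have hus : (0 : ℝ) < (sp Q a : ℝ) * sp Q b := mul_pos hu hs
  have h2 : 1 / ((sp Q a : ℝ) * sp Q b) ≤ 8 * Real.log x ^ 2 / Q := by linarith
  have h3 : Q ≤ 8 * Real.log x ^ 2 * ((sp Q a : ℝ) * sp Q b) := by
    rw [div_le_div_iff₀ hus (by linarith)] at h2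
    linarith
  have h4 : W ^ 2 ≤ (sp Q a : ℝ) * sp Q b := by
    have h5 : 8 * Real.log x ^ 2 * W ^ 2 ≤ 8 * Real.log x ^ 2 * ((sp Q a : ℝ) * sp Q b) :=
      h1.trans h3
    exact le_of_mul_le_mul_left h5 (by linarith)
  have hsm : ∀ n p : ℕ, p.Prime → p ∣ sp Q n → (p : ℝ) ≤ Q := by
    intro n p hp hpn
    have : p ∈ (sp Q n).primeFactors := Nat.mem_primeFactors.2 ⟨hp, hpn, (sp_pos Q n).ne'⟩
    rw [sp_primeFactors] at this
    exact (mem_filter.1 this).2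
  rcases le_or_gt W (sp Q a : ℝ) with h | h
  · obtain ⟨w, w1, w2, w3⟩ := hD (sp Q a) Q W (sp_pos Q a).ne' hW1 hWQ h (hsm a)
    exact ⟨w, w2, w3, Or.inl w1⟩
  · have h6 : W ≤ (sp Q b : ℝ) := by
      by_contra h7
      push Not at h7
      nlinarith
    obtain ⟨w, w1, w2, w3⟩ := hD (sp Q b) Q W (sp_pos Q b).ne' hW1 hWQ h6 (hsm b)
    exact ⟨w, w2, w3, Or.inr w1⟩

end Pool.Agent.Helper44.BB
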